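import Pool.Agent.K6.H98.CL.Ind

/-!
# Finiteness of the image of the `l`-adic cycle class map: finite fields, and one sequence of cubics

Q1 asks whether, for a smooth projective variety `X` over a field of characteristic `p > 0`, cycle
classes in `H_l(X)` which are linearly independent over `ℚ` are linearly independent over `L = ℚ_l`,
that is whether the map `ι_X : Im cl ⊗_ℚ ℚ_l ⟶ H_l(X)` is injective. It is enough to consider the
cycles of one codimension at a time. For a subgroup `R` of a vector space `V` over `L` this is
`IsIndependent L R` (for the `ℚ`-subspace `R` of classes of cycles with rational coefficients;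
independence over `ℤ` and over `ℚ` are the same).

(1) Specialisation. Let `V = H_l(X)`, with the subgroup `R` of the classes of cycles, where `X` is
smooth and projective over a field `K` of characteristic `p`, which we may assume to be finitely
generated. Then `X` has a good reduction `X_0` over a finite field `F`, a finite extension of `𝔽_p`,
`j : H_l(X) ≅ H_l(X_0) = V₀`, and cycles on `X` specialise to cycles on `X_0`, so that `j` maps `R` to
the subgroup `R₀` of the classes of cycles on `X_0` (`IsSpecialisation`). If `X_0` is regarded as a
variety over `𝔽_p` then `V₀` is the direct sum of the cohomology groups of the conjugates of `X_0`;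
then the components of `j` are the compositions with elements of the Galois group of `𝔽_p`, and `j` is
still linear and injective with `j(R) ⊆ R₀`. By part (1) Q1 for `X` follows from Q1 for `X_0`. So Q1
for all fields of characteristic `p` is equivalent to Q1 for finite fields.

(2) Numerical equivalence. Suppose that every cycle on `X` whose class is not zero has, at some closed
point of the base of the model of `X`, a specialisation which is not numerically equivalent to zero.
Let `i` run through the closed points, let `A' i` be the cohomology of the special fibre `X_i` in the
complementary degree, `R' i` the classes of cycles, and `B i y z` the intersection number of the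
specialisation of `y` and `z`. It is rational if `y` and `z` are classes of cycles, so that
`IsNumerical` holds, and so Q1 holds for `X` and `l`, by part (2). This is so if homological
equivalence for `l` and numerical equivalence agree on one special fibre. For example, by the
theorem of Clozel for abelian varieties over finite fields and a set of primes `l` of positive
density, `ι_X` is injective for every abelian variety `X` over any field of positive characteristic,
for infinitely many `l`. (For infinite fields the agreement of homological and numerical equivalence on
`X` itself is not a formal consequence of that on a special fibre: a cycle may be numerically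
trivial on `X` and have a numerically nontrivial specialisation.)

(3) Cubic hypersurfaces. For polynomials `e_1, …, e_r`, `r > 0`, in `𝔽_p[x_1, …, x_m]`, each of one of
the forms `x_a - x_b x_c`, `x_a - (x_b + x_c)`, `x_a - 1` (`IsElementary ∅ e`), let `V(e)`
(`Hypersurface e`) be the hypersurface `∑ u_j e_j(x) = w (1 - w)` in the affine space with coordinates
`x_i`, `u_j`, `w`. It is smooth of dimension `m + r`, integral, rational and of degree at most three
(`IsRationalHypersurface e`).
Let `M.H B a b` be Bloch's higher Chow group `CH_b(Spec B, a)` with rational coefficients, and `T.H B a b`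
the `l`-adic Borel-Moore homology of `Spec B ⊗ \bar 𝔽_p` in degree `a + 2b` with coefficients
`ℚ_l(-b)`; for `Spec B` smooth of pure dimension `d` this is `H^(2(d-b)-a)` with coefficients
`ℚ_l(d-b)`. The cycle map is `c : M → T`. `BM` and `LinearBM` are the known properties of such
theories: push-forward along closed immersions, pull-back along smooth morphisms, localization
sequences, homotopy invariance, and the usual compatibilities.
`Independent c B b` is the injectivity of `ι` for cycles of dimension `b` on `Spec B`. For a variety
`X` over `𝔽_p` let `V X b` be the group `H` of `X` in degree `2b`, `S X b` the subgroup of the classes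
of cycles of dimension `b`; `𝒱` is the class of varieties with an ample family of line bundles. It
contains all smooth and all quasi-projective varieties. Every variety in `𝒱` has a torsor under a
vector bundle which is affine (Jouanolou, Thomason), and pull-back to the torsor is an isomorphism on
both groups; this gives `IsExtensionOf`. For `X` smooth and projective, `IsIndependent L (S X b)` for
all `b` is the injectivity of `ι_X`.

The theorem says that there is one sequence `V_1, V_2, …` of such `V(e)`, the same for all `l`, such
that the following are equivalent (`IsReduced`): `ι_X` is injective for all smooth varieties `X` over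
`𝔽_p`; for all `X` in `𝒱`; for all `V(e)`; for infinitely many `V_N`. And then Q1 holds for all smooth
projective varieties over all fields of characteristic `p` (by (1)). The statement for varieties which
are not proper may be stronger than Q1.

The construction and the library are those of `MP_2a05c8_ag.CubicHypersurfaces` and
`MP_81632f_ag.CubicHypersurfaces` (helper18). New here: the property of Q1 is inherited by natural
direct summands (linear over `ℚ_l`), the specialisation, and the use of numerical equivalence on
the special fibres. The proof of (2) uses a `ℚ`-linear retraction of `ℚ_l` onto `ℚ`.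
-/

set_option autoImplicit false

open AlgebraicGeometry CategoryTheory MvPolynomial

namespace Pool.Agent.Results.MP_035963_ag.FiniteFieldsAndCubics

open Pool.Agent.K6.H18.Cubic Pool.Agent.K6.H18.Cubic.Alg Pool.Agent.K6.H98.CL

/-- `R` (the classes of cycles of some codimension on a variety over a field of characteristic `p`)
has a specialisation to the classes `S X b` of cycles on a variety `X` in `𝒱`. -/
def HasSpecialisation {k : Type} [CommRing k] (L : Type) [Field L]
    (𝒱 : Over (Spec (CommRingCat.of k)) → Prop) {V : Over (Spec (CommRingCat.of k)) → ℤ → Type}
    [∀ X b, AddCommGroup (V X b)] [∀ X b, Module L (V X b)] (S : ∀ X b, AddSubgroup (V X b))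
    {A : Type} [AddCommGroup A] [Module L A] (R : AddSubgroup A) : Prop :=
  ∃ (X : Over (Spec (CommRingCat.of k))) (b : ℤ) (j : A →ₗ[L] V X b),
    𝒱 X ∧ IsSpecialisation j R (S X b)

/-- Q1 for varieties over fields of characteristic `p`: specialisation to finite fields, numerical
equivalence on the specialisation, and one sequence of explicit smooth rational cubic
hypersurfaces over `𝔽_p`. -/
theorem result (p : ℕ) [Fact p.Prime] :
    (∀ (L : Type) [Field L] (A A₀ : Type) [AddCommGroup A] [Module L A] [AddCommGroup A₀]
      [Module L A₀] (R : AddSubgroup A) (R₀ : AddSubgroup A₀) (j : A →ₗ[L] A₀),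
      IsSpecialisation j R R₀ → IsIndependent L R₀ → IsIndependent L R) ∧
    (∀ (L : Type) [Field L] [CharZero L] (A : Type) [AddCommGroup A] [Module L A]
      (R : AddSubgroup A) (I : Type) (A' : I → Type) [∀ i, AddCommGroup (A' i)]
      [∀ i, Module L (A' i)] (R' : ∀ i, AddSubgroup (A' i)) (B : ∀ i, A →ₗ[L] A' i →ₗ[L] L),
      IsNumerical B R R' → IsIndependent L R) ∧
    (∀ (m r : ℕ) (e : Fin r → MvPolynomial (Fin m) (ZMod p)), IsElementary ∅ e →
      IsRationalHypersurface e) ∧
    ∃ v : ℕ → EqnSystem (ZMod p), (∀ N, IsElementary ∅ (v N).eqs) ∧
      ∀ (L : Type) [Field L] (M : BM (ZMod p)) (T : LinearBM (ZMod p) L) (c : M.Hom T.toBM)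
        (𝒱 : Over (Spec (CommRingCat.of (ZMod p))) → Prop)
        (V : Over (Spec (CommRingCat.of (ZMod p))) → ℤ → Type)
        [∀ X b, AddCommGroup (V X b)] [∀ X b, Module L (V X b)]
        (S : ∀ X b, AddSubgroup (V X b)), (∀ X, IsSmoothVariety X → 𝒱 X) →
        IsExtensionOf (Independent c) 𝒱 (fun X b => IsIndependent L (S X b)) →
        IsReduced ∅ v 𝒱 (fun X b => IsIndependent L (S X b)) ∧
        ∀ I : Set ℕ, I.Infinite → (∀ N ∈ I, ∀ b, IsIndependent L (S (member v N) b)) →
          (∀ X, IsSmoothVariety X → ∀ b, IsIndependent L (S X b)) ∧
          ∀ (A : Type) [AddCommGroup A] [Module L A] (R : AddSubgroup A),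
            HasSpecialisation L 𝒱 S R → IsIndependent L R := by
  refine ⟨fun L _ A A₀ _ _ _ _ R R₀ j hj => hj.independent,
    fun L _ _ A _ _ R I A' _ _ R' B hB => hB.independent,
    fun _ _ e he => isRationalHypersurface e he, ?_⟩
  have hsep := isSeparable_of_finite (ZMod p) ∅
  obtain ⟨v, hv, h⟩ := exists_isReduced (k := ZMod p) (S := ∅) Set.countable_empty
  refine ⟨v, hv, fun L _ M T c 𝒱 V _ _ S hsm hTX => ?_⟩
  have h1 := h _ (inherited_independent c) 𝒱 _ hTX
  refine ⟨h1, fun I hI hN => ?_⟩
  have h2 : ∀ X, 𝒱 X → ∀ b, IsIndependent L (S X b) := ((h1.tfae I hI).out 3 1).1 hN
  refine ⟨fun X hX => h2 X (hsm X hX), ?_⟩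
  rintro A _ _ R ⟨X, b, j, hX, hj⟩
  exact hj.independent (h2 X hX b)

end Pool.Agent.Results.MP_035963_ag.FiniteFieldsAndCubics
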